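import Mathlib

/-!
# A blind cop on a star can win at speed `2k - 3` (and below)

The star `S_k` with edge lengths `ℓ` is modelled as the union of the `k` coordinate segments
`[0, ℓ i] e_i` in `ℝ^k`, with the `ℓ¹` distance, which on the star is the shortest-path metric:
two points of the same leg at distances `r, r'` from the centre are at distance `|r - r'|`, two
points of different legs at distance `r + r'`.

We show that for `k = 1002` and all edge lengths equal to `1` the cop has a winning strategy at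
speed `2 k - 3 = 2001`, and already at speed `1990`.
-/

namespace Pool.Agent.Results.MP_29e9a5_co.BlindCopBeatsStar

open Set

/-- The star with `k` legs of lengths `ℓ i`: the union of the segments `[0, ℓ i] e_i` in `ℝ^k`. -/
def starSet {k : ℕ} (ℓ : Fin k → ℝ) : Set (Fin k → ℝ) :=
  {x | (∀ i, 0 ≤ x i ∧ x i ≤ ℓ i) ∧ ∀ i j, i ≠ j → x i = 0 ∨ x j = 0}

/-- The `ℓ¹` distance; on the star it is the shortest-path distance. -/
def starDist {k : ℕ} (x y : Fin k → ℝ) : ℝ := ∑ i, |x i - y i|

/-- `f` is an `s`-Lipschitz map from `[0, T]` to the star. -/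
def IsPath {k : ℕ} (ℓ : Fin k → ℝ) (s T : ℝ) (f : ℝ → Fin k → ℝ) : Prop :=
  (∀ t ∈ Icc 0 T, f t ∈ starSet ℓ) ∧
    ∀ t ∈ Icc 0 T, ∀ u ∈ Icc 0 T, starDist (f t) (f u) ≤ s * |t - u|

/-- The cop, receiving no information, has a winning strategy with maximal speed `s` against a
robber of maximal speed `1`. -/
def CopWins {k : ℕ} (ℓ : Fin k → ℝ) (s : ℝ) : Prop :=
  ∃ T : ℝ, 0 < T ∧ ∃ f : ℝ → Fin k → ℝ, IsPath ℓ s T f ∧
    ∀ g : ℝ → Fin k → ℝ, IsPath ℓ 1 T g → ∃ t ∈ Icc 0 T, f t = g t

/-- The assertion of the problem: for every `k ≥ 3` and all positive edge lengths, the cop has a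
winning strategy at speed `s > 0` exactly when `s > 2 k - 3`. -/
def StarConjecture : Prop :=
  ∀ k : ℕ, 3 ≤ k → ∀ ℓ : Fin k → ℝ, (∀ i, 0 < ℓ i) →
    ∀ s : ℝ, 0 < s → (CopWins ℓ s ↔ 2 * (k : ℝ) - 3 < s)

/-! ### Tent paths given by a family of disjoint time intervals -/

section Tent

variable {k : ℕ} {I : Type} (a b : I → ℝ) (leg : I → Fin k) (s : ℝ)

/-- The height of the tent over `[a, b]` at time `t`. -/
def tent (s a b t : ℝ) : ℝ := min 1 (s * min (t - a) (b - t))

open Classical in
/-- The cop's path: during `(a n, b n)` he makes an excursion into the leg `leg n`. -/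
noncomputable def cop (t : ℝ) : Fin k → ℝ :=
  if h : ∃ n, a n < t ∧ t < b n then
    Pi.single (leg h.choose) (tent s (a h.choose) (b h.choose) t) else 0

variable {a b leg s}

lemma sum_abs_single (i : Fin k) (r : ℝ) :
    ∑ j, |(Pi.single i r : Fin k → ℝ) j| = |r| := by
  rw [Finset.sum_eq_single i]
  · simp
  · intro j _ hj; simp [Pi.single_eq_of_ne hj]
  · simp

lemma cop_eq (disj : ∀ m n, m ≠ n → b m ≤ a n ∨ b n ≤ a m) {n : I} {t : ℝ}
    (h1 : a n < t) (h2 : t < b n) :
    cop a b leg s t = Pi.single (leg n) (tent s (a n) (b n) t) := by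
  have h : ∃ n, a n < t ∧ t < b n := ⟨n, h1, h2⟩
  have hn : h.choose = n := by
    by_contra hne
    have hc := h.choose_spec
    rcases disj _ _ hne with h3 | h3 <;> linarith [hc.1, hc.2]
  unfold cop
  rw [dif_pos h, hn]

lemma cop_zero {t : ℝ} (h : ∀ n, ¬ (a n < t ∧ t < b n)) : cop a b leg s t = 0 := by
  unfold cop
  rw [dif_neg]
  rintro ⟨n, hn⟩
  exact h n hn

lemma cop_left (hab : ∀ n, a n < b n) (disj : ∀ m n, m ≠ n → b m ≤ a n ∨ b n ≤ a m) (n : I) :
    cop a b leg s (a n) = 0 := by
  apply cop_zero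
  rintro m ⟨h1, h2⟩
  by_cases hmn : m = n
  · subst hmn; exact lt_irrefl _ h1
  · rcases disj _ _ hmn with h | h
    · linarith
    · linarith [hab n]

lemma cop_right (hab : ∀ n, a n < b n) (disj : ∀ m n, m ≠ n → b m ≤ a n ∨ b n ≤ a m) (n : I) :
    cop a b leg s (b n) = 0 := by
  apply cop_zero
  rintro m ⟨h1, h2⟩
  by_cases hmn : m = n
  · subst hmn; exact lt_irrefl _ h2
  · rcases disj _ _ hmn with h | h
    · linarith [hab n]
    · linarith

lemma tent_nonneg (hs : 0 ≤ s) {a b t : ℝ} (h1 : a ≤ t) (h2 : t ≤ b) : 0 ≤ tent s a b t := by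
  unfold tent
  refine le_min (by norm_num) (mul_nonneg hs (le_min (by linarith) (by linarith)))

lemma tent_pos (hs : 0 < s) {a b t : ℝ} (h1 : a < t) (h2 : t < b) : 0 < tent s a b t := by
  unfold tent
  refine lt_min (by norm_num) (mul_pos hs (lt_min (by linarith) (by linarith)))

lemma tent_le_one {a b t : ℝ} : tent s a b t ≤ 1 := min_le_left _ _

lemma tent_le_left (hs : 0 ≤ s) {a b t : ℝ} : tent s a b t ≤ s * (t - a) :=
  (min_le_right _ _).trans (mul_le_mul_of_nonneg_left (min_le_left _ _) hs)

lemma tent_le_right (hs : 0 ≤ s) {a b t : ℝ} : tent s a b t ≤ s * (b - t) :=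
  (min_le_right _ _).trans (mul_le_mul_of_nonneg_left (min_le_right _ _) hs)

lemma tent_lip (hs : 0 ≤ s) (a b t u : ℝ) : |tent s a b t - tent s a b u| ≤ s * |t - u| := by
  unfold tent
  refine (abs_min_sub_min_le_max _ _ _ _).trans ?_
  refine max_le (by simpa using mul_nonneg hs (abs_nonneg _)) ?_
  rw [← mul_sub, abs_mul, abs_of_nonneg hs]
  refine mul_le_mul_of_nonneg_left ?_ hs
  refine (abs_min_sub_min_le_max _ _ _ _).trans ?_
  refine max_le ?_ ?_
  · exact le_of_eq (by congr 1; ring)
  · exact le_of_eq (by rw [abs_sub_comm t u]; congr 1; ring)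

lemma sum_abs_sub_le (x y : Fin k → ℝ) : starDist x y ≤ ∑ i, |x i| + ∑ i, |y i| := by
  unfold starDist
  rw [← Finset.sum_add_distrib]
  exact Finset.sum_le_sum fun i _ => abs_sub _ _

lemma cop_lip_aux (hs : 0 ≤ s) (disj : ∀ m n, m ≠ n → b m ≤ a n ∨ b n ≤ a m) {t u : ℝ}
    (htu : t < u) : starDist (cop a b leg s t) (cop a b leg s u) ≤ s * (u - t) := by
  by_cases ht : ∃ n, a n < t ∧ t < b n
  · obtain ⟨n, hn1, hn2⟩ := ht
    rw [cop_eq disj hn1 hn2]
    by_cases hu : u < b n
    · rw [cop_eq disj (hn1.trans htu) hu]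
      unfold starDist
      have : ∀ i, (Pi.single (leg n) (tent s (a n) (b n) t) : Fin k → ℝ) i
          - (Pi.single (leg n) (tent s (a n) (b n) u) : Fin k → ℝ) i
          = (Pi.single (leg n) (tent s (a n) (b n) t - tent s (a n) (b n) u) : Fin k → ℝ) i := by
        intro i
        by_cases hi : i = leg n
        · subst hi; simp
        · simp [Pi.single_eq_of_ne hi]
      simp_rw [this]
      rw [sum_abs_single]
      refine (tent_lip hs _ _ _ _).trans ?_
      rw [abs_sub_comm, abs_of_pos (by linarith)]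
    · push Not at hu
      have h1 : |tent s (a n) (b n) t| ≤ s * (b n - t) := by
        rw [abs_of_nonneg (tent_nonneg hs hn1.le hn2.le)]
        exact tent_le_right hs
      by_cases hu2 : ∃ m, a m < u ∧ u < b m
      · obtain ⟨m, hm1, hm2⟩ := hu2
        have hmn : m ≠ n := by rintro rfl; linarith
        have hb : b n ≤ a m := by
          rcases disj _ _ hmn with h | h
          · linarith
          · exact h
        rw [cop_eq disj hm1 hm2]
        refine (sum_abs_sub_le _ _).trans ?_
        rw [sum_abs_single, sum_abs_single]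
        have h2 : |tent s (a m) (b m) u| ≤ s * (u - a m) := by
          rw [abs_of_nonneg (tent_nonneg hs hm1.le hm2.le)]
          exact tent_le_left hs
        nlinarith
      · rw [cop_zero (t := u) (by push Not at hu2 ⊢; exact hu2)]
        refine (sum_abs_sub_le _ _).trans ?_
        rw [sum_abs_single]
        simp only [Pi.zero_apply, abs_zero, Finset.sum_const_zero, add_zero]
        refine h1.trans (mul_le_mul_of_nonneg_left (by linarith) hs)
  · rw [cop_zero (t := t) (by push Not at ht ⊢; exact ht)]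
    by_cases hu2 : ∃ m, a m < u ∧ u < b m
    · obtain ⟨m, hm1, hm2⟩ := hu2
      have hta : t ≤ a m := by
        by_contra h
        exact ht ⟨m, not_le.1 h, htu.trans hm2⟩
      rw [cop_eq disj hm1 hm2]
      refine (sum_abs_sub_le _ _).trans ?_
      rw [sum_abs_single]
      simp only [Pi.zero_apply, abs_zero, Finset.sum_const_zero, zero_add]
      rw [abs_of_nonneg (tent_nonneg hs hm1.le hm2.le)]
      exact (tent_le_left hs).trans (mul_le_mul_of_nonneg_left (by linarith) hs)
    · rw [cop_zero (t := u) (by push Not at hu2 ⊢; exact hu2)]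
      unfold starDist
      simp only [sub_self, abs_zero, Finset.sum_const_zero]
      exact mul_nonneg hs (by linarith)

lemma cop_lip (hs : 0 ≤ s) (disj : ∀ m n, m ≠ n → b m ≤ a n ∨ b n ≤ a m) (t u : ℝ) :
    starDist (cop a b leg s t) (cop a b leg s u) ≤ s * |t - u| := by
  rcases lt_trichotomy t u with h | h | h
  · rw [abs_sub_comm, abs_of_pos (by linarith : 0 < u - t)]
    exact cop_lip_aux hs disj h
  · subst h; simp [starDist]
  · rw [abs_of_pos (by linarith : 0 < t - u)]
    have := cop_lip_aux (leg := leg) hs disj h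
    unfold starDist at this ⊢
    simp_rw [abs_sub_comm] at this ⊢
    simpa [abs_sub_comm] using this

lemma cop_mem (hs : 0 ≤ s) (disj : ∀ m n, m ≠ n → b m ≤ a n ∨ b n ≤ a m) (t : ℝ) :
    cop a b leg s t ∈ starSet (fun _ : Fin k => (1 : ℝ)) := by
  by_cases ht : ∃ n, a n < t ∧ t < b n
  · obtain ⟨n, hn1, hn2⟩ := ht
    rw [cop_eq disj hn1 hn2]
    refine ⟨fun i => ?_, fun i j hij => ?_⟩
    · by_cases hi : i = leg n
      · subst hi
        simp only [Pi.single_eq_same]
        exact ⟨tent_nonneg hs hn1.le hn2.le, tent_le_one⟩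
      · simp [Pi.single_eq_of_ne hi]
    · by_cases hi : i = leg n
      · right
        subst hi
        exact Pi.single_eq_of_ne (Ne.symm hij) _
      · left
        exact Pi.single_eq_of_ne hi _
  · rw [cop_zero (t := t) (by push Not at ht ⊢; exact ht)]
    exact ⟨fun i => by simp, fun i j _ => Or.inl rfl⟩

end Tent

/-! ### Interaction of a robber with one excursion -/

section Robber

variable {k : ℕ} {f g : ℝ → Fin k → ℝ} {A B : ℝ}

/-- The standing assumptions on a robber path `g` that avoids `f` on `[A, B]`. -/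
structure Avoids (f g : ℝ → Fin k → ℝ) (A B : ℝ) : Prop where
  mem : ∀ t ∈ Icc A B, g t ∈ starSet (fun _ : Fin k => (1 : ℝ))
  lip : ∀ t ∈ Icc A B, ∀ u ∈ Icc A B, starDist (g t) (g u) ≤ |t - u|
  ne : ∀ t ∈ Icc A B, f t ≠ g t

lemma Avoids.coord (h : Avoids f g A B) {t u : ℝ} (ht : t ∈ Icc A B) (hu : u ∈ Icc A B)
    (i : Fin k) : |g t i - g u i| ≤ |t - u| := by
  refine le_trans ?_ (h.lip t ht u hu)
  unfold starDist
  exact Finset.single_le_sum (f := fun j => |g t j - g u j|) (fun j _ => abs_nonneg _)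
    (Finset.mem_univ i)

lemma Avoids.single (h : Avoids f g A B) {t : ℝ} (ht : t ∈ Icc A B) {i : Fin k}
    (hi : 0 < g t i) : g t = Pi.single i (g t i) := by
  funext j
  by_cases hj : j = i
  · subst hj; simp
  · rw [Pi.single_eq_of_ne hj]
    rcases (h.mem t ht).2 i j (Ne.symm hj) with h1 | h1
    · exact absurd h1 hi.ne'
    · exact h1

lemma Avoids.continuousOn (h : Avoids f g A B) (i : Fin k) :
    ContinuousOn (fun t => g t i) (Icc A B) := by
  have : LipschitzOnWith 1 (fun t => g t i) (Icc A B) := by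
    refine LipschitzOnWith.of_dist_le_mul fun t ht u hu => ?_
    simpa [Real.dist_eq] using h.coord ht hu i
  exact this.continuousOn

lemma tent_continuous (s a b : ℝ) : Continuous (fun t => tent s a b t) := by
  unfold tent
  fun_prop

/-- If at some time of an excursion into leg `i` the robber is beyond the cop, then he is beyond
the cop at all interior times of the excursion. -/
lemma Avoids.beyond (h : Avoids f g A B) {s a b : ℝ} (hs : 0 < s) {i : Fin k}
    (hf : ∀ t, a < t → t < b → f t = Pi.single i (tent s a b t))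
    (hA : A ≤ a) (hB : b ≤ B) {t₀ : ℝ} (h0 : t₀ ∈ Icc a b) (hb0 : tent s a b t₀ < g t₀ i)
    {t : ℝ} (ht1 : a < t) (ht2 : t < b) : tent s a b t < g t i := by
  by_contra hcon
  push Not at hcon
  have hsub : Icc a b ⊆ Icc A B := Icc_subset_Icc hA hB
  have hmem : t ∈ Icc a b := ⟨ht1.le, ht2.le⟩
  have hus : uIcc t t₀ ⊆ Icc a b := by
    rw [← segment_eq_uIcc]; exact (convex_Icc a b).segment_subset hmem h0
  have hc : ContinuousOn (fun t => g t i - tent s a b t) (uIcc t t₀) :=
    ((h.continuousOn i).mono (hus.trans hsub)).sub (tent_continuous s a b).continuousOn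
  have hz : (0 : ℝ) ∈ uIcc ((fun t => g t i - tent s a b t) t)
      ((fun t => g t i - tent s a b t) t₀) := by
    simp only
    rw [mem_uIcc]
    left
    constructor <;> linarith
  obtain ⟨x, hx, hx0⟩ := intermediate_value_uIcc hc hz
  have hxab := hus hx
  simp only at hx0
  have hxt0 : x ≠ t₀ := by rintro rfl; linarith
  -- x lies strictly between a and b
  have hxa : a < x := by
    rcases mem_uIcc.1 hx with ⟨h1, h2⟩ | ⟨h1, h2⟩
    · linarith
    · rcases lt_or_eq_of_le h0.1 with h3 | h3
      · linarith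
      · rcases lt_or_eq_of_le h1 with h4 | h4
        · linarith
        · exact absurd h4.symm hxt0
  have hxb : x < b := by
    rcases mem_uIcc.1 hx with ⟨h1, h2⟩ | ⟨h1, h2⟩
    · rcases lt_or_eq_of_le h2 with h4 | h4
      · linarith [h0.2]
      · exact absurd h4 hxt0
    · linarith
  have hpos := tent_pos hs hxa hxb
  have hg : g x = Pi.single i (g x i) := h.single (hsub hxab) (by linarith)
  apply h.ne x (hsub hxab)
  rw [hf x hxa hxb, hg]
  congr 1
  linarith

end Robber

/-! ### The schedule -/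

section Schedule

/-- Residue of an integer as a leg. -/
def legOf (k : ℕ) (hk : 0 < k) (z : ℤ) : Fin k :=
  ⟨(z % k).toNat, by
    have h1 : 0 ≤ z % k := Int.emod_nonneg _ (by exact_mod_cast hk.ne')
    have h2 : z % k < k := Int.emod_lt_of_pos _ (by exact_mod_cast hk)
    omega⟩

lemma legOf_add_mul (k : ℕ) (hk : 0 < k) (z n : ℤ) : legOf k hk (z + k * n) = legOf k hk z := by
  unfold legOf
  simp [Int.add_mul_emod_self_left]

lemma legOf_add (k : ℕ) (hk : 0 < k) (z : ℤ) : legOf k hk (z + k) = legOf k hk z := by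
  simpa using legOf_add_mul k hk z 1

lemma legOf_fin (k : ℕ) (hk : 0 < k) (i : Fin k) : legOf k hk (i : ℤ) = i := by
  unfold legOf
  apply Fin.ext
  simp only
  have h : ((i : ℕ) : ℤ) % k = (i : ℕ) := Int.emod_eq_of_lt (by positivity) (by exact_mod_cast i.2)
  rw [h]; simp

/-- The relative boundary times inside a block. -/
def uu (c e : ℝ) : ℕ → ℝ
  | 0 => 1
  | (j + 1) => 1 + e + j * c

lemma uu_lt {c e : ℝ} (hc : 0 < c) (he : 0 < e) (j : ℕ) : uu c e j < uu c e (j + 1) := by
  cases j with
  | zero => simp [uu, he]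
  | succ j => simp only [uu]; push_cast; linarith

lemma uu_mono {c e : ℝ} (hc : 0 < c) (he : 0 < e) : StrictMono (uu c e) :=
  strictMono_nat_of_lt_succ (uu_lt hc he)

/-- Start times: contracting excursions before time `0`, blocks of excursions after time `0`. -/
noncomputable def sa (M : ℕ) (q c e : ℝ) : ℤ ⊕ (ℤ × Fin (M + 1)) → ℝ
  | Sum.inl l => - q ^ (l + 1)
  | Sum.inr (b, j) => q ^ b * uu c e j

/-- End times. -/
noncomputable def sb (M : ℕ) (q c e : ℝ) : ℤ ⊕ (ℤ × Fin (M + 1)) → ℝ
  | Sum.inl l => - q ^ l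
  | Sum.inr (b, j) => q ^ b * uu c e (j + 1)

/-- Legs visited. -/
def sleg (k M : ℕ) (hk : 0 < k) : ℤ ⊕ (ℤ × Fin (M + 1)) → Fin k
  | Sum.inl l => legOf k hk l
  | Sum.inr (b, j) => legOf k hk (b + (j : ℕ))

variable {k N M : ℕ} {lam q c e : ℝ}

lemma s_lt (hq : 1 < q) (hc : 0 < c) (he : 0 < e) (n : ℤ ⊕ (ℤ × Fin (M + 1))) :
    sa M q c e n < sb M q c e n := by
  have hq0 : 0 < q := by linarith
  rcases n with l | ⟨b, j⟩
  · simp only [sa, sb]
    have : q ^ l < q ^ (l + 1) := zpow_lt_zpow_right₀ hq (by omega)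
    linarith
  · simp only [sa, sb]
    exact mul_lt_mul_of_pos_left (uu_lt hc he _) (zpow_pos hq0 _)

lemma s_disj (hq : 1 < q) (hc : 0 < c) (he : 0 < e) (h3 : 1 + e + M * c ≤ q)
    (m n : ℤ ⊕ (ℤ × Fin (M + 1))) (hmn : m ≠ n) :
    sb M q c e m ≤ sa M q c e n ∨ sb M q c e n ≤ sa M q c e m := by
  have hq0 : 0 < q := by linarith
  have huq : ∀ j : ℕ, j ≤ M + 1 → uu c e j ≤ q := by
    intro j hj
    refine ((uu_mono hc he).monotone hj).trans ?_
    simpa [uu] using h3
  have hu1 : ∀ j : ℕ, 1 ≤ uu c e j := fun j => (uu_mono hc he).monotone (Nat.zero_le j)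
  have key : ∀ (b b' : ℤ) (j j' : Fin (M + 1)), b < b' →
      q ^ b * uu c e ((j : ℕ) + 1) ≤ q ^ b' * uu c e (j' : ℕ) := by
    intro b b' j j' hb
    calc q ^ b * uu c e ((j : ℕ) + 1) ≤ q ^ b * q :=
          mul_le_mul_of_nonneg_left (huq _ (by have := j.2; omega)) (zpow_pos hq0 _).le
      _ = q ^ (b + 1) := by rw [zpow_add_one₀ hq0.ne']
      _ ≤ q ^ b' := zpow_le_zpow_right₀ hq.le (by omega)
      _ = q ^ b' * 1 := by ring
      _ ≤ q ^ b' * uu c e (j' : ℕ) :=
          mul_le_mul_of_nonneg_left (hu1 _) (zpow_pos hq0 _).le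
  rcases m with l | ⟨b, j⟩ <;> rcases n with l' | ⟨b', j'⟩
  · simp only [sa, sb]
    have hne : l ≠ l' := fun h => hmn (by rw [h])
    rcases lt_or_gt_of_ne hne with h | h
    · right
      have : q ^ (l + 1) ≤ q ^ l' := zpow_le_zpow_right₀ hq.le (by omega)
      linarith
    · left
      have : q ^ (l' + 1) ≤ q ^ l := zpow_le_zpow_right₀ hq.le (by omega)
      linarith
  · left
    simp only [sa, sb]
    have h1 := zpow_pos hq0 l
    have h2 := mul_pos (zpow_pos hq0 b') (lt_of_lt_of_le one_pos (hu1 j'))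
    linarith
  · right
    simp only [sa, sb]
    have h1 := zpow_pos hq0 l'
    have h2 := mul_pos (zpow_pos hq0 b) (lt_of_lt_of_le one_pos (hu1 j))
    linarith
  · simp only [sa, sb]
    rcases lt_trichotomy b b' with h | h | h
    · left; exact key b b' j j' h
    · subst h
      have hne : j ≠ j' := fun h => hmn (by rw [h])
      rcases lt_or_gt_of_ne hne with h | h
      · left
        exact mul_le_mul_of_nonneg_left ((uu_mono hc he).monotone (by
          have : (j : ℕ) < j' := h
          omega)) (zpow_pos hq0 _).le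
      · right
        exact mul_le_mul_of_nonneg_left ((uu_mono hc he).monotone (by
          have : (j' : ℕ) < j := h
          omega)) (zpow_pos hq0 _).le
    · right; exact key b' b j' j h

/-- The cop's path on the time interval `[-1, q ^ k]`. -/
noncomputable def path (k M : ℕ) (hk : 0 < k) (lam q c e : ℝ) : ℝ → Fin k → ℝ :=
  cop (sa M q c e) (sb M q c e) (sleg k M hk) (2 * lam + 1)

set_option maxHeartbeats 4000000 in
theorem path_catches (hk : 0 < k) (hNM : N + M = k) (hlam : 0 < lam) (hq : 1 < q) (hc : 0 < c)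
    (he : 0 < e) (h1 : 2 ≤ lam * e) (h2 : q ^ (N + 1) ≤ lam * (q - 1) - 1)
    (h3 : 1 + e + M * c ≤ q) (h4 : (q - 1) * q ≤ (lam + 2) * c) {g : ℝ → Fin k → ℝ}
    (hg : Avoids (path k M hk lam q c e) g (-1) (q ^ (k : ℤ))) : False := by
  have hq0 : 0 < q := by linarith
  set T : ℝ := q ^ (k : ℤ) with hT
  have hT0 : 0 < T := zpow_pos hq0 _
  have hs : (0 : ℝ) < 2 * lam + 1 := by linarith
  set f := path k M hk lam q c e with hfdef
  have hlt := s_lt (M := M) hq hc he
  have hdisj := s_disj (M := M) hq hc he h3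
  have fint : ∀ (n : ℤ ⊕ (ℤ × Fin (M + 1))) (t : ℝ), sa M q c e n < t → t < sb M q c e n →
      f t = Pi.single (sleg k M hk n) (tent (2 * lam + 1) (sa M q c e n) (sb M q c e n) t) :=
    fun n t ht1 ht2 => cop_eq hdisj ht1 ht2
  have fleft : ∀ n : ℤ ⊕ (ℤ × Fin (M + 1)), f (sa M q c e n) = 0 := fun n =>
    cop_left hlt hdisj n
  have fright : ∀ n : ℤ ⊕ (ℤ × Fin (M + 1)), f (sb M q c e n) = 0 := fun n =>
    cop_right hlt hdisj n
  have hu1 : ∀ j : ℕ, 1 ≤ uu c e j := fun j => (uu_mono hc he).monotone (Nat.zero_le j)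
  have huq : ∀ j : ℕ, j ≤ M + 1 → uu c e j ≤ q := by
    intro j hj
    refine ((uu_mono hc he).monotone hj).trans ?_
    simpa [uu] using h3
  -- the robber's position at time 0
  have f0 : f 0 = 0 := by
    apply cop_zero
    rintro (l | ⟨b, j⟩) ⟨ha, hb⟩
    · simp only [sa, sb] at ha hb
      have := zpow_pos hq0 l
      linarith
    · simp only [sa, sb] at ha hb
      have h := mul_pos (zpow_pos hq0 b) (lt_of_lt_of_le one_pos (hu1 j))
      linarith
  have h0mem : (0 : ℝ) ∈ Icc (-1 : ℝ) T := ⟨by norm_num, hT0.le⟩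
  obtain ⟨i, hi⟩ : ∃ i, g 0 i ≠ 0 := by
    by_contra hcon
    push Not at hcon
    exact hg.ne 0 h0mem (by rw [f0]; funext j; exact (hcon j).symm)
  have hr0 : 0 < g 0 i := lt_of_le_of_ne ((hg.mem 0 h0mem).1 i).1 (Ne.symm hi)
  have tl : ∀ a b : ℝ, a < b → tent (2 * lam + 1) a b a = 0 := by
    intro a b hab; unfold tent; simp [sub_nonneg.2 hab.le]
  have tr : ∀ a b : ℝ, a < b → tent (2 * lam + 1) a b b = 0 := by
    intro a b hab; unfold tent; simp [sub_nonneg.2 hab.le]
  have tm : ∀ a b : ℝ, a < b →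
      tent (2 * lam + 1) a b ((a + b) / 2) = min 1 ((2 * lam + 1) * ((b - a) / 2)) := by
    intro a b hab; unfold tent
    have e1 : (a + b) / 2 - a = (b - a) / 2 := by ring
    have e2 : b - (a + b) / 2 = (b - a) / 2 := by ring
    rw [e1, e2, min_self]
  -- facts about a visit of leg i that starts at a time when the robber is in leg i
  have visit : ∀ n : ℤ ⊕ (ℤ × Fin (M + 1)), sleg k M hk n = i → -1 ≤ sa M q c e n →
      sb M q c e n ≤ T → 0 < g (sa M q c e n) i → ∀ t, sa M q c e n < t → t < sb M q c e n →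
      tent (2 * lam + 1) (sa M q c e n) (sb M q c e n) t < g t i := by
    intro n hn ha hb hga t ht1 ht2
    refine hg.beyond hs (fun t h1 h2 => by rw [← hn]; exact fint n t h1 h2) ha hb
      (left_mem_Icc.2 (hlt n).le) ?_ ht1 ht2
    rw [tl _ _ (hlt n)]; exact hga
  -- the robber never leaves leg i after time 0
  have stay : ∀ t ∈ Icc 0 T, 0 < g t i := by
    by_contra hcon
    push Not at hcon
    set Z : Set ℝ := {t | t ∈ Icc 0 T ∧ g t i ≤ 0} with hZ
    have hZne : Z.Nonempty := by
      obtain ⟨t, ht, ht2⟩ := hcon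
      exact ⟨t, ht, ht2⟩
    have hZcl : IsClosed Z := by
      have : Z = Icc 0 T ∩ (fun t => g t i) ⁻¹' (Iic 0) := by
        ext t; simp [hZ]
      rw [this]
      exact ((hg.continuousOn i).mono (Icc_subset_Icc_left (by norm_num))).preimage_isClosed_of_isClosed
        isClosed_Icc isClosed_Iic
    have hZbdd : BddBelow Z := ⟨0, fun t ht => ht.1.1⟩
    set τ := sInf Z with hτ
    have hτZ : τ ∈ Z := hZcl.csInf_mem hZne hZbdd
    have hτ0 : 0 < τ := by
      rcases lt_or_eq_of_le hτZ.1.1 with h | h
      · exact h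
      · exfalso
        have := hτZ.2
        rw [← h] at this
        linarith
    have hτT : τ ≤ T := hτZ.1.2
    have hτmem : τ ∈ Icc (-1 : ℝ) T := ⟨by linarith, hτT⟩
    have hbefore : ∀ t, 0 ≤ t → t < τ → 0 < g t i := by
      intro t ht0 htτ
      by_contra hcon2
      have : t ∈ Z := ⟨⟨ht0, by linarith⟩, not_lt.1 hcon2⟩
      have := csInf_le hZbdd this
      linarith
    have hgτi : g τ i = 0 := le_antisymm hτZ.2 ((hg.mem τ hτmem).1 i).1
    have hgτ : g τ = 0 := by
      funext j
      by_cases hj : j = i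
      · rw [hj, hgτi]; rfl
      · have hnn : 0 ≤ g τ j := ((hg.mem τ hτmem).1 j).1
        have hsmall : ∀ δ : ℝ, 0 < δ → g τ j ≤ δ := by
          intro δ hδ
          have ht : max 0 (τ - δ) < τ := max_lt hτ0 (by linarith)
          have htm : max 0 (τ - δ) ∈ Icc (-1 : ℝ) T :=
            ⟨by linarith [le_max_left 0 (τ - δ)], by linarith⟩
          have hpos := hbefore _ (le_max_left _ _) ht
          have hz : g (max 0 (τ - δ)) j = 0 := by
            rw [hg.single htm hpos]; exact Pi.single_eq_of_ne hj _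
          have hc := hg.coord hτmem htm j
          rw [hz, sub_zero, abs_of_nonneg hnn, abs_of_pos (by linarith)] at hc
          linarith [le_max_right 0 (τ - δ)]
        have : g τ j ≤ 0 := le_of_forall_pos_le_add (fun δ hδ => by simpa using hsmall δ hδ)
        exact le_antisymm this hnn
    have hfτ : f τ ≠ 0 := fun h => hg.ne τ hτmem (by rw [h, hgτ])
    -- a visit of leg i starting no later than τ is survived and pushes τ far away
    have V : ∀ n : ℤ ⊕ (ℤ × Fin (M + 1)), sleg k M hk n = i → 0 ≤ sa M q c e n →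
        sb M q c e n ≤ T → sa M q c e n ≤ τ →
        (2 * lam + 1) * ((sb M q c e n - sa M q c e n) / 2) < 1 ∧
        (2 * lam + 1) * ((sb M q c e n - sa M q c e n) / 2) <
          g ((sa M q c e n + sb M q c e n) / 2) i ∧
        (sa M q c e n + sb M q c e n) / 2 + (2 * lam + 1) * ((sb M q c e n - sa M q c e n) / 2)
          < τ := by
      intro n hn ha0 hbT haτ
      have hab := hlt n
      have haτ' : sa M q c e n < τ := by
        rcases lt_or_eq_of_le haτ with h | h
        · exact h
        · exact absurd (by rw [← h]; exact fleft n) hfτ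
      have hga := hbefore _ ha0 haτ'
      have hv := visit n hn (by linarith) hbT hga
      have hbτ : sb M q c e n < τ := by
        by_contra hcon2
        push Not at hcon2
        rcases lt_or_eq_of_le hcon2 with h | h
        · have := hv τ haτ' h
          have h5 := tent_pos hs haτ' h
          linarith
        · exact hfτ (by rw [h]; exact fright n)
      set m := (sa M q c e n + sb M q c e n) / 2 with hm
      have hm1 : sa M q c e n < m := by rw [hm]; linarith
      have hm2 : m < sb M q c e n := by rw [hm]; linarith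
      have hgm := hv m hm1 hm2
      rw [hm, tm _ _ hab, ← hm] at hgm
      have hmmem : m ∈ Icc (-1 : ℝ) T := ⟨by linarith, by linarith⟩
      have hgm1 : g m i ≤ 1 := ((hg.mem m hmmem).1 i).2
      have hlt1 : (2 * lam + 1) * ((sb M q c e n - sa M q c e n) / 2) < 1 := by
        by_contra hcon2
        push Not at hcon2
        rw [min_eq_left hcon2] at hgm
        linarith
      rw [min_eq_right hlt1.le] at hgm
      refine ⟨hlt1, hgm, ?_⟩
      have hcd := hg.coord hmmem hτmem i
      rw [hgτi, sub_zero, abs_of_nonneg ((hg.mem m hmmem).1 i).1, abs_sub_comm,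
        abs_of_pos (by linarith)] at hcd
      linarith
    -- one full cycle of the leg
    have cycle : ∀ l : ℤ, legOf k hk l = i → q ^ l ≤ τ → q ^ l < 1 ∧ q ^ (l + k) ≤ τ := by
      intro l hl hlτ
      have hql := zpow_pos hq0 l
      -- the gap excursion
      have hmem0 : (0 : ℕ) < M + 1 := Nat.succ_pos M
      let n0 : ℤ ⊕ (ℤ × Fin (M + 1)) := Sum.inr (l, ⟨0, hmem0⟩)
      have ha0 : sa M q c e n0 = q ^ l := by simp [n0, sa, uu]
      have hb0 : sb M q c e n0 = q ^ l * (1 + e) := by simp [n0, sb, uu]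
      have hleg0 : sleg k M hk n0 = i := by simp [n0, sleg, hl]
      have hlk : l < k := by
        by_contra hcon2
        push Not at hcon2
        have hTl : T ≤ q ^ l := zpow_le_zpow_right₀ hq.le (by exact_mod_cast hcon2)
        -- then τ = T = q ^ l is a start time
        have hTe : τ = q ^ l := le_antisymm (hτT.trans hTl) hlτ
        exact hfτ (by rw [hTe, ← ha0]; exact fleft n0)
      have h1e : 1 + e ≤ q := by
        have := huq 1 (by omega)
        simpa [uu] using this
      have hbT : sb M q c e n0 ≤ T := by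
        rw [hb0]
        calc q ^ l * (1 + e) ≤ q ^ l * q := mul_le_mul_of_nonneg_left h1e hql.le
          _ = q ^ (l + 1) := by rw [zpow_add_one₀ hq0.ne']
          _ ≤ T := zpow_le_zpow_right₀ hq.le (by omega)
      have hV0 := V n0 hleg0 (by rw [ha0]; exact hql.le) hbT (by rw [ha0]; exact hlτ)
      rw [ha0, hb0] at hV0
      obtain ⟨hVa, hVb, -⟩ := hV0
      have hdur : (q ^ l * (1 + e) - q ^ l) / 2 = q ^ l * (e / 2) := by ring
      rw [hdur] at hVa hVb
      have hqlt : q ^ l < 1 := by nlinarith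
      have hl0 : l < 0 := by
        by_contra hcon2
        push Not at hcon2
        have : (1 : ℝ) ≤ q ^ l := one_le_zpow₀ hq.le hcon2
        linarith
      -- lower bound for the position at time 0
      have hr1 : q ^ l < g 0 i := by
        have hmmem : (q ^ l + q ^ l * (1 + e)) / 2 ∈ Icc (-1 : ℝ) T := by
          constructor
          · nlinarith
          · rw [hb0] at hbT
            nlinarith
        have hcd := hg.coord hmmem h0mem i
        have hcd2 := (abs_le.1 hcd).2
        rw [sub_zero, abs_of_pos (by nlinarith)] at hcd2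
        nlinarith
      -- the contracting excursion before time 0
      let n1 : ℤ ⊕ (ℤ × Fin (M + 1)) := Sum.inl l
      have ha1 : sa M q c e n1 = - q ^ (l + 1) := rfl
      have hb1 : sb M q c e n1 = - q ^ l := rfl
      have hleg1 : sleg k M hk n1 = i := hl
      have hq1 : q ^ (l + 1) = q ^ l * q := by rw [zpow_add_one₀ hq0.ne']
      have hq1' : q ^ (l + 1) ≤ 1 := zpow_le_one_of_nonpos₀ hq.le (by omega)
      have hr2 : q ^ l * (lam * (q - 1) - 1) < g 0 i := by
        have hab := hlt n1
        have hbmem : sb M q c e n1 ∈ Icc (-1 : ℝ) T := by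
          rw [hb1]; constructor <;> linarith
        have hgb : 0 < g (sb M q c e n1) i := by
          have hcd := (abs_le.1 (hg.coord h0mem hbmem i)).2
          rw [hb1, sub_neg_eq_add, zero_add, abs_of_pos hql] at hcd
          rw [hb1]
          linarith
        set m := (sa M q c e n1 + sb M q c e n1) / 2 with hm
        have hm1 : sa M q c e n1 < m := by rw [hm]; linarith
        have hm2 : m < sb M q c e n1 := by rw [hm]; linarith
        have hgm : tent (2 * lam + 1) (sa M q c e n1) (sb M q c e n1) m < g m i := by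
          refine hg.beyond hs (fun t h1 h2 => by rw [← hleg1]; exact fint n1 t h1 h2)
            (by rw [ha1]; linarith) hbmem.2 (right_mem_Icc.2 hab.le) ?_ hm1 hm2
          rw [tr _ _ hab]; exact hgb
        rw [hm, tm _ _ hab, ← hm] at hgm
        have hmval : m = - (q ^ l * (q + 1) / 2) := by rw [hm, ha1, hb1, hq1]; ring
        have hmmem : m ∈ Icc (-1 : ℝ) T := ⟨by rw [ha1] at hm1; linarith, by rw [hb1] at hm2; linarith⟩
        have hgm1 : g m i ≤ 1 := ((hg.mem m hmmem).1 i).2
        have hlt1 : (2 * lam + 1) * ((sb M q c e n1 - sa M q c e n1) / 2) < 1 := by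
          by_contra hcon2
          push Not at hcon2
          rw [min_eq_left hcon2] at hgm
          linarith
        rw [min_eq_right hlt1.le, ha1, hb1, hq1] at hgm
        have hcd := (abs_le.1 (hg.coord hmmem h0mem i)).2
        rw [sub_zero, hmval, abs_neg, abs_of_pos (by positivity)] at hcd
        rw [hmval] at hgm
        nlinarith
      have hτr : g 0 i ≤ τ := by
        have hcd := (abs_le.1 (hg.coord h0mem hτmem i)).2
        rw [hgτi, sub_zero, zero_sub, abs_neg, abs_of_pos hτ0] at hcd
        exact hcd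
      have hbase : q ^ (l + N) * q ≤ τ := by
        have e1 : q ^ (l + N) * q = q ^ l * q ^ (N + 1) := by
          rw [zpow_add₀ hq0.ne', zpow_natCast, pow_succ]; ring
        rw [e1]
        calc q ^ l * q ^ (N + 1) ≤ q ^ l * (lam * (q - 1) - 1) :=
              mul_le_mul_of_nonneg_left h2 hql.le
          _ ≤ τ := by linarith
      -- descending induction over the slots
      have chain : ∀ d : ℕ, d ≤ M → q ^ (l + N + d) * uu c e (M - d) ≤ τ := by
        intro d
        induction d with
        | zero =>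
          intro _
          have : uu c e (M - 0) ≤ q := huq _ (by omega)
          calc q ^ (l + N + ((0 : ℕ) : ℤ)) * uu c e (M - 0) ≤ q ^ (l + N) * q := by
                rw [Nat.cast_zero, add_zero]
                exact mul_le_mul_of_nonneg_left this (zpow_pos hq0 _).le
            _ ≤ τ := hbase
        | succ d ih =>
          intro hd
          have ih' := ih (by omega)
          obtain ⟨j, hj⟩ : ∃ j, M - d = j + 1 := ⟨M - d - 1, by omega⟩
          have hj2 : M - (d + 1) = j := by omega
          rw [hj] at ih'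
          rw [hj2]
          have hjM : j + 1 < M + 1 := by omega
          let n2 : ℤ ⊕ (ℤ × Fin (M + 1)) := Sum.inr (l + N + d, ⟨j + 1, hjM⟩)
          have ha2 : sa M q c e n2 = q ^ (l + N + d) * uu c e (j + 1) := rfl
          have hb2 : sb M q c e n2 = q ^ (l + N + d) * uu c e (j + 1 + 1) := rfl
          have hleg2 : sleg k M hk n2 = i := by
            have : sleg k M hk n2 = legOf k hk (l + N + d + ((j + 1 : ℕ) : ℤ)) := rfl
            rw [this]
            have e2 : l + N + d + ((j + 1 : ℕ) : ℤ) = l + k := by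
              push_cast
              omega
            rw [e2, legOf_add, hl]
          have hp := zpow_pos hq0 (l + N + (d : ℤ))
          have hb2T : sb M q c e n2 ≤ T := by
            rw [hb2]
            calc q ^ (l + N + (d : ℤ)) * uu c e (j + 1 + 1) ≤ q ^ (l + N + (d : ℤ)) * q :=
                  mul_le_mul_of_nonneg_left (huq _ (by omega)) hp.le
              _ = q ^ (l + N + d + 1) := by rw [zpow_add_one₀ hq0.ne']
              _ ≤ T := zpow_le_zpow_right₀ hq.le (by omega)
          have hV := (V n2 hleg2 (by rw [ha2]; exact mul_nonneg hp.le (by linarith [hu1 (j+1)]))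
            hb2T (by rw [ha2]; exact ih')).2.2
          rw [ha2, hb2] at hV
          have hp1 : q ^ (l + N + ((d + 1 : ℕ) : ℤ)) = q ^ (l + N + (d : ℤ)) * q := by
            have e9 : l + N + ((d + 1 : ℕ) : ℤ) = l + N + (d : ℤ) + 1 := by push_cast; ring
            rw [e9, zpow_add_one₀ hq0.ne']
          rw [hp1]
          have hdur2 : uu c e (j + 1 + 1) = uu c e (j + 1) + c := by
            simp only [uu]; push_cast; ring
          rw [hdur2] at hV
          have hkey : q * uu c e j ≤ uu c e (j + 1) + (lam + 1) * c := by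
            have hqq : uu c e j ≤ q := huq _ (by omega)
            rcases Nat.eq_zero_or_pos j with hj0 | hj0
            · subst hj0
              have : uu c e 0 = 1 := rfl
              have h7 : uu c e (0 + 1) = 1 + e := by simp [uu]
              rw [this, h7]
              nlinarith
            · obtain ⟨j', rfl⟩ : ∃ j', j = j' + 1 := ⟨j - 1, by omega⟩
              have h7 : uu c e (j' + 1 + 1) = uu c e (j' + 1) + c := by
                simp only [uu]; push_cast; ring
              rw [h7]
              nlinarith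
          have hfin : q ^ (l + N + (d : ℤ)) * (q * uu c e j) ≤
              q ^ (l + N + (d : ℤ)) * (uu c e (j + 1) + (lam + 1) * c) :=
            mul_le_mul_of_nonneg_left hkey hp.le
          calc q ^ (l + N + (d : ℤ)) * q * uu c e j = q ^ (l + N + (d : ℤ)) * (q * uu c e j) := by
                ring
            _ ≤ q ^ (l + N + (d : ℤ)) * (uu c e (j + 1) + (lam + 1) * c) := hfin
            _ ≤ τ := by
                refine le_trans (le_of_eq ?_) hV.le
                ring
      have hM := chain M le_rfl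
      refine ⟨hqlt, ?_⟩
      have e3 : l + N + (M : ℤ) = l + k := by omega
      rw [e3, Nat.sub_self] at hM
      simpa [uu] using hM
    -- iterate the cycle
    obtain ⟨n, hn⟩ : ∃ n : ℕ, q⁻¹ ^ n < τ :=
      exists_pow_lt_of_lt_one hτ0 (inv_lt_one_of_one_lt₀ hq)
    have hstart : legOf k hk ((i : ℤ) + k * (-(n + 1 : ℤ))) = i := by
      rw [legOf_add_mul, legOf_fin]
    have hiter : ∀ d : ℕ, legOf k hk ((i : ℤ) + k * (-(n + 1 : ℤ)) + k * d) = i ∧
        q ^ ((i : ℤ) + k * (-(n + 1 : ℤ)) + k * d) ≤ τ := by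
      intro d
      refine ⟨by rw [legOf_add_mul, hstart], ?_⟩
      induction d with
      | zero =>
        simp only [Nat.cast_zero, mul_zero, add_zero]
        refine le_trans ?_ hn.le
        rw [inv_pow, ← zpow_natCast, ← zpow_neg]
        refine zpow_le_zpow_right₀ hq.le ?_
        have hik : (i : ℤ) < k := by exact_mod_cast i.2
        have hk1 : (1 : ℤ) ≤ k := by exact_mod_cast hk
        nlinarith
      | succ d ih =>
        have h8 := (cycle _ (by rw [legOf_add_mul, hstart]) ih).2
        have e4 : (i : ℤ) + k * (-(n + 1 : ℤ)) + k * d + k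
            = (i : ℤ) + k * (-(n + 1 : ℤ)) + k * ((d + 1 : ℕ) : ℤ) := by push_cast; ring
        rw [e4] at h8
        exact h8
    have hlast := hiter (n + 1)
    have h9 := (cycle _ hlast.1 hlast.2).1
    have e5 : (i : ℤ) + k * (-(n + 1 : ℤ)) + k * ((n + 1 : ℕ) : ℤ) = (i : ℤ) := by
      push_cast; ring
    rw [e5] at h9
    have : (1 : ℝ) ≤ q ^ ((i : ℕ) : ℤ) := one_le_zpow₀ hq.le (by positivity)
    linarith
  -- final excursion into leg i reaches the leaf
  let n0 : ℤ ⊕ (ℤ × Fin (M + 1)) := Sum.inr ((i : ℤ), ⟨0, Nat.succ_pos M⟩)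
  have ha0 : sa M q c e n0 = q ^ (i : ℤ) := by simp [n0, sa, uu]
  have hb0 : sb M q c e n0 = q ^ (i : ℤ) * (1 + e) := by simp [n0, sb, uu]
  have hleg0 : sleg k M hk n0 = i := by
    have : sleg k M hk n0 = legOf k hk ((i : ℤ) + ((0 : ℕ) : ℤ)) := rfl
    rw [this, Nat.cast_zero, add_zero, legOf_fin]
  have hqi : (1 : ℝ) ≤ q ^ (i : ℤ) := one_le_zpow₀ hq.le (by positivity)
  have h1e : 1 + e ≤ q := by
    have := huq 1 (by omega)
    simpa [uu] using this
  have hik : (i : ℤ) < k := by exact_mod_cast i.2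
  have hbT : sb M q c e n0 ≤ T := by
    rw [hb0]
    calc q ^ (i : ℤ) * (1 + e) ≤ q ^ (i : ℤ) * q :=
          mul_le_mul_of_nonneg_left h1e (by linarith)
      _ = q ^ ((i : ℤ) + 1) := by rw [zpow_add_one₀ hq0.ne']
      _ ≤ T := zpow_le_zpow_right₀ hq.le (by omega)
  have hab := hlt n0
  have hga : 0 < g (sa M q c e n0) i :=
    stay _ ⟨by rw [ha0]; linarith, hab.le.trans hbT⟩
  have hm1 : sa M q c e n0 < (sa M q c e n0 + sb M q c e n0) / 2 := by linarith
  have hm2 : (sa M q c e n0 + sb M q c e n0) / 2 < sb M q c e n0 := by linarith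
  have hgm := visit n0 hleg0 (by rw [ha0]; linarith) hbT hga _ hm1 hm2
  rw [tm _ _ hab, ha0, hb0] at hgm
  have hbig : 1 ≤ (2 * lam + 1) * ((q ^ (i : ℤ) * (1 + e) - q ^ (i : ℤ)) / 2) := by
    have e6 : (2 * lam + 1) * ((q ^ (i : ℤ) * (1 + e) - q ^ (i : ℤ)) / 2)
        = q ^ (i : ℤ) * (lam * e + e / 2) := by ring
    rw [e6]
    nlinarith
  rw [min_eq_left hbig] at hgm
  have hmmem : (q ^ (i : ℤ) + q ^ (i : ℤ) * (1 + e)) / 2 ∈ Icc (-1 : ℝ) T := by
    rw [ha0, hb0] at hm2
    rw [hb0] at hbT
    constructor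
    · nlinarith
    · linarith
  have := ((hg.mem _ hmmem).1 i).2
  linarith

end Schedule

/-! ### The theorem -/

theorem copWins_of_params {k N M : ℕ} {lam q c e : ℝ} (hk : 0 < k) (hNM : N + M = k)
    (hlam : 0 < lam) (hq : 1 < q) (hc : 0 < c) (he : 0 < e) (h1 : 2 ≤ lam * e)
    (h2 : q ^ (N + 1) ≤ lam * (q - 1) - 1) (h3 : 1 + e + M * c ≤ q)
    (h4 : (q - 1) * q ≤ (lam + 2) * c) :
    CopWins (fun _ : Fin k => (1 : ℝ)) (2 * lam + 1) := by
  have hq0 : 0 < q := by linarith
  have hT0 : 0 < q ^ (k : ℤ) := zpow_pos hq0 _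
  refine ⟨q ^ (k : ℤ) + 1, by linarith, fun t => path k M hk lam q c e (t - 1), ⟨?_, ?_⟩, ?_⟩
  · intro t _
    exact cop_mem (by linarith) (s_disj hq hc he h3) _
  · intro t _ u _
    have := cop_lip (leg := sleg k M hk) (s := 2 * lam + 1) (by linarith)
      (s_disj hq hc he h3) (t - 1) (u - 1)
    simpa [path] using this
  · intro g hg
    by_contra hcon
    push Not at hcon
    refine path_catches (g := fun t => g (t + 1)) hk hNM hlam hq hc he h1 h2 h3 h4
      ⟨?_, ?_, ?_⟩
    · intro t ht
      exact hg.1 (t + 1) ⟨by linarith [ht.1], by linarith [ht.2]⟩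
    · intro t ht u hu
      have := hg.2 (t + 1) ⟨by linarith [ht.1], by linarith [ht.2]⟩ (u + 1)
        ⟨by linarith [hu.1], by linarith [hu.2]⟩
      simpa using this
    · intro t ht
      have := hcon (t + 1) ⟨by linarith [ht.1], by linarith [ht.2]⟩
      simpa using this

/-- On the star with `k = 1002` legs of length `1` the blind cop wins at speed `1950` and at every
larger speed, in particular at speed `2 k - 3 = 2001`; so the formula `s^*(S_k) = (2 k - 3)^+`
fails. -/
theorem result :
    (∀ s : ℝ, 1950 ≤ s → CopWins (fun _ : Fin 1002 => (1 : ℝ)) s) ∧ ¬ StarConjecture := by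
  have key : CopWins (fun _ : Fin 1002 => (1 : ℝ)) 1950 := by
    have := copWins_of_params (k := 1002) (N := 146) (M := 856) (lam := 1949 / 2)
      (q := 51 / 50) (c := 1 / 47867) (e := 4 / 1949) (by norm_num) (by norm_num) (by norm_num)
      (by norm_num) (by norm_num) (by norm_num) (by norm_num) (by norm_num) (by norm_num)
      (by norm_num)
    have e : (2 * (1949 / 2) + 1 : ℝ) = 1950 := by norm_num
    rwa [e] at this
  have all : ∀ s : ℝ, 1950 ≤ s → CopWins (fun _ : Fin 1002 => (1 : ℝ)) s := by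
    intro s hs
    obtain ⟨T, hT, f, hf, hw⟩ := key
    refine ⟨T, hT, f, ⟨hf.1, fun t ht u hu => (hf.2 t ht u hu).trans ?_⟩, hw⟩
    exact mul_le_mul_of_nonneg_right hs (abs_nonneg _)
  refine ⟨all, fun hconj => ?_⟩
  have h := (hconj 1002 (by norm_num) (fun _ => (1 : ℝ)) (fun _ => one_pos) 2001
    (by norm_num)).1 (all 2001 (by norm_num))
  norm_num at h

end Pool.Agent.Results.MP_29e9a5_co.BlindCopBeatsStar
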